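import Pool.Agent.H89.NV.TU2
import Pool.Agent.H60.CM4.FOR

/-!
# VSE: sums over vectors of homothetic lattices
-/

set_option autoImplicit false

open MeasureTheory Set Filter NumberField NumberField.InfinitePlace Pool.Agent.H65.CM4
  Pool.Agent.H61.NVK Pool.Agent.H89.NV
open scoped Real nonZeroDivisors

namespace Pool.Agent.H7.NVK

open Pool.Agent.H60.CM4 (rep rep_rel rep_smul rep_mem mem_Fo smul_ne)

section

variable {k : Type} [Field k] [NumberField k] {K : Type} [Field K] [Algebra k K]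

theorem hom_mulL (a : Ideal (𝓞 k)) (g e : K) (L : Submodule (𝓞 k) K) :
    hom a (g * e) L = (hom a e L).map (LinearMap.mulLeft (𝓞 k) g) := by
  unfold hom
  rw [Submodule.map_smul'', ← Submodule.map_comp]
  congr 2
  ext x
  simp [mul_assoc]

theorem hom_one (J : Ideal (𝓞 k)) (L : Submodule (𝓞 k) K) : hom J (1 : K) L = J • L := by
  unfold hom
  have : LinearMap.mulLeft (𝓞 k) (1 : K) = LinearMap.id := by
    ext x
    simp
  rw [this, Submodule.map_id]

theorem map_unit (e : (𝓞 k)ˣ) (N : Submodule (𝓞 k) K) :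
    N.map (LinearMap.mulLeft (𝓞 k) (algebraMap (𝓞 k) K (e : 𝓞 k))) = N := by
  ext z
  rw [Submodule.mem_map]
  constructor
  · rintro ⟨n, hn, rfl⟩
    rw [LinearMap.mulLeft_apply, ← Algebra.smul_def]
    exact N.smul_mem _ hn
  · intro hz
    refine ⟨((e⁻¹ : (𝓞 k)ˣ) : 𝓞 k) • z, N.smul_mem _ hz, ?_⟩
    rw [LinearMap.mulLeft_apply, ← Algebra.smul_def, smul_smul, Units.mul_inv, one_smul]

/-- the span of `y` acts as multiplication by `y` -/
theorem span_smul_map (x y : 𝓞 k) (hy : y ≠ 0) (g : K) (L : Submodule (𝓞 k) K) :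
    Ideal.span {y} • L.map (LinearMap.mulLeft (𝓞 k)
      (g * algebraMap (𝓞 k) K x / algebraMap (𝓞 k) K y)) =
    Ideal.span {x} • L.map (LinearMap.mulLeft (𝓞 k) g) := by
  have hy' : algebraMap (𝓞 k) K y ≠ 0 := by
    rw [IsScalarTower.algebraMap_apply (𝓞 k) k K]
    intro h0
    rw [map_eq_zero] at h0
    exact hy (RingOfIntegers.ext h0)
  have e1 : ∀ l : K, y • (g * algebraMap (𝓞 k) K x / algebraMap (𝓞 k) K y * l) = x • (g * l) := by
    intro l
    rw [Algebra.smul_def, Algebra.smul_def]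
    field_simp
  rw [Submodule.ideal_span_singleton_smul, Submodule.ideal_span_singleton_smul]
  ext z
  rw [Submodule.mem_smul_pointwise_iff_exists, Submodule.mem_smul_pointwise_iff_exists]
  constructor
  · rintro ⟨n, ⟨l, hl, rfl⟩, rfl⟩
    exact ⟨g * l, ⟨l, hl, rfl⟩, (e1 l).symm⟩
  · rintro ⟨n, ⟨l, hl, rfl⟩, rfl⟩
    exact ⟨_, ⟨l, hl, rfl⟩, e1 l⟩

end

variable (k : Type) [Field k] [NumberField k] [IsTotallyReal k]

/-- homothetic lattices: the vectors modulo the units -/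
theorem one_dir (hLMB : T_LMB k) (D : 𝓞 k) (hD : tp D) (K : Type) [Field K] [Algebra k K]
    (h : CK D K) (f : Ideal (𝓞 k)) (hf : f ≠ ⊥) (A A' a a' : Ideal (𝓞 k)) (b b' : 𝓞 k) (g : K)
    (hA : Fm f D A b) (hA' : Fm f D A' b') (hg : g ≠ 0) (hCKB : T_CKB k)
    (heq : hom a g (Lam h f A b) = hom a' 1 (Lam h f A' b')) :
    ∀ u : V2 k, u ∈ Lb a (A * f) → u ∈ Fo k → ∃ u' : V2 k, (u' ∈ Lb a' (A' * f) ∧ u' ∈ Fo k) ∧
      ∃ e : (𝓞 k)ˣ, g * algebraMap (𝓞 k) K (e : 𝓞 k) * zz h b u = zz h b' u' := by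
  intro u hu huF
  obtain ⟨-, -, -, -, -, -, -, hC⟩ := hCKB D hD K h
  obtain ⟨-, hsm, hinj, -⟩ := hC f A b hf hA
  obtain ⟨-, hsm', hinj', -⟩ := hC f A' b' hf hA'
  have h1 : zz h b u ∈ hom a 1 (Lam h f A b) :=
    ((hLMB D hD K h f a A b hf hA).1 _).mpr ⟨u, hu, rfl⟩
  have h2 : g * zz h b u ∈ hom a' 1 (Lam h f A' b') := by
    rw [← heq, ← mul_one g, hom_mulL, mul_one]
    exact ⟨_, h1, rfl⟩
  obtain ⟨v, hv, hgv⟩ := ((hLMB D hD K h f a' A' b' hf hA').1 _).mp h2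
  have hz0 : ∀ (c : 𝓞 k), zz h c 0 = 0 := by
    intro c
    unfold zz
    simp
  have hu0 : u ≠ 0 := ((mem_Fo k u).1 huF).1
  have hv0 : v ≠ 0 := by
    rintro rfl
    rw [hz0] at hgv
    rcases mul_eq_zero.mp hgv with h3 | h3
    · exact hg h3
    · exact hu0 (hinj _ _ (h3.trans (hz0 b).symm))
  obtain ⟨e, he⟩ := rep_rel k v
  refine ⟨rep k v, ⟨?_, rep_mem k hv0⟩, e, ?_⟩
  · rw [he]
    exact (Lb a' (A' * f)).smul_mem _ hv
  · rw [he, hsm', ← hgv]
    ring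

theorem pf_VSE (hIDL : T_IDL k) (hCKB : T_CKB k) (hLMB : T_LMB k) : T_VSE k := by
  classical
  intro D hD K _ _ h f w hf hw A A' I J b b' g hA hA' hI hJ hg heq
  obtain ⟨-, -, -, -, -, -, hcan⟩ := hIDL
  have hCC := hCKB D hD K h
  obtain ⟨-, -, -, -, -, -, -, hC⟩ := hCC
  obtain ⟨-, hsm, hinj, -⟩ := hC f A b hf hA
  obtain ⟨-, hsm', hinj', -⟩ := hC f A' b' hf hA'
  set I0 : (Ideal (𝓞 k))⁰ := ⟨I, mem_nonZeroDivisors_of_ne_zero hI⟩ with hI0
  set J0 : (Ideal (𝓞 k))⁰ := ⟨J, mem_nonZeroDivisors_of_ne_zero hJ⟩ with hJ0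
  set σ : ClassGroup (𝓞 k) ≃ ClassGroup (𝓞 k) :=
    Equiv.mulRight (ClassGroup.mk0 I0 * (ClassGroup.mk0 J0)⁻¹) with hσ
  have hci : ∀ c : ClassGroup (𝓞 k), ci c ≠ ⊥ := fun c => nonZeroDivisors.coe_ne_zero (cr c)
  have hmk : ∀ c : ClassGroup (𝓞 k), ClassGroup.mk0 (cr c) = c := fun c =>
    Function.surjInv_eq ClassGroup.mk0_surjective c
  -- the homothety of each class
  have key : ∀ c : ClassGroup (𝓞 k), ∃ γ : K, γ ≠ 0 ∧
      hom (ci c) γ (Lam h f A b) = hom (ci (σ c)) 1 (Lam h f A' b') := by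
    intro c
    have h1 : ClassGroup.mk0 (cr c * I0) = ClassGroup.mk0 (J0 * cr (σ c)) := by
      rw [map_mul, map_mul, hmk, hmk, hσ, Equiv.coe_mulRight]
      rw [mul_comm (ClassGroup.mk0 J0), mul_assoc, mul_assoc, inv_mul_cancel, mul_one]
    rw [ClassGroup.mk0_eq_mk0_iff] at h1
    obtain ⟨x, y, hx, hy, hxy⟩ := h1
    have hxy' : Ideal.span {x} * (ci c * I) = Ideal.span {y} * (J * ci (σ c)) := hxy
    have hne : ∀ z : 𝓞 k, z ≠ 0 → algebraMap (𝓞 k) K z ≠ 0 := by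
      intro z hz h0
      rw [IsScalarTower.algebraMap_apply (𝓞 k) k K, map_eq_zero] at h0
      exact hz (RingOfIntegers.ext h0)
    refine ⟨g * algebraMap (𝓞 k) K x / algebraMap (𝓞 k) K y,
      div_ne_zero (mul_ne_zero hg (hne x hx)) (hne y hy), ?_⟩
    have hyJ : Ideal.span {y} * J ≠ ⊥ := by
      refine mul_ne_zero ?_ hJ
      intro h0
      exact hy (Ideal.span_singleton_eq_bot.mp h0)
    refine hcan K (Ideal.span {y} * J) _ _ hyJ ?_
    have hJI : J • (Lam h f A b).map (LinearMap.mulLeft (𝓞 k) g) = I • Lam h f A' b' := by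
      rw [← hom_one I, ← heq]
      rfl
    calc (Ideal.span {y} * J) • hom (ci c)
          (g * algebraMap (𝓞 k) K x / algebraMap (𝓞 k) K y) (Lam h f A b)
        = (J * ci c) • (Ideal.span {y} • (Lam h f A b).map (LinearMap.mulLeft (𝓞 k)
            (g * algebraMap (𝓞 k) K x / algebraMap (𝓞 k) K y))) := by
          unfold hom
          rw [← Submodule.mul_smul, ← Submodule.mul_smul]
          congr 1
          ring
      _ = (J * ci c) • (Ideal.span {x} • (Lam h f A b).map (LinearMap.mulLeft (𝓞 k) g)) := by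
          rw [span_smul_map x y hy g]
      _ = (Ideal.span {x} * ci c) • (J • (Lam h f A b).map (LinearMap.mulLeft (𝓞 k) g)) := by
          rw [← Submodule.mul_smul, ← Submodule.mul_smul]
          congr 1
          ring
      _ = (Ideal.span {x} * (ci c * I)) • Lam h f A' b' := by
          rw [hJI, ← Submodule.mul_smul]
          congr 1
          ring
      _ = (Ideal.span {y} * J) • hom (ci (σ c)) 1 (Lam h f A' b') := by
          rw [hxy', hom_one, ← Submodule.mul_smul]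
          congr 1
          ring
  unfold Vs
  rw [← Equiv.sum_comp σ (fun c => ∑' u : V2 k, if u ∈ Lb (ci c) (A' * f) ∧ u ∈ Fo k then
    w (ci c) A' b' u else 0)]
  refine Finset.sum_congr rfl fun c _ => ?_
  obtain ⟨γ, hγ, hγeq⟩ := key c
  have hγ' : hom (ci (σ c)) γ⁻¹ (Lam h f A' b') = hom (ci c) 1 (Lam h f A b) := by
    have h1 : hom (ci c) 1 (Lam h f A b) =
        (hom (ci c) γ (Lam h f A b)).map (LinearMap.mulLeft (𝓞 k) γ⁻¹) := by
      rw [← hom_mulL, inv_mul_cancel₀ hγ]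
    rw [h1, hγeq, ← hom_mulL, mul_one]
  have hfw := one_dir k hLMB D hD K h f hf A A' (ci c) (ci (σ c)) b b' γ hA hA' hγ hCKB hγeq
  have hbw := one_dir k hLMB D hD K h f hf A' A (ci (σ c)) (ci c) b' b γ⁻¹ hA' hA
    (inv_ne_zero hγ) hCKB hγ'
  let S : Set (V2 k) := {u | u ∈ Lb (ci c) (A * f) ∧ u ∈ Fo k}
  let S' : Set (V2 k) := {u | u ∈ Lb (ci (σ c)) (A' * f) ∧ u ∈ Fo k}
  have hex : ∀ u : S, ∃ u' : S', ∃ e : (𝓞 k)ˣ,
      γ * algebraMap (𝓞 k) K (e : 𝓞 k) * zz h b (u : V2 k) = zz h b' (u' : V2 k) := by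
    intro u
    obtain ⟨u', hu', e, he⟩ := hfw u u.2.1 u.2.2
    exact ⟨⟨u', hu'⟩, e, he⟩
  choose F e hF using hex
  have hFb : Function.Bijective F := by
    constructor
    · intro u v huv
      have h1 := hF u
      have h2 := hF v
      rw [huv, ← h2, mul_assoc, mul_assoc] at h1
      have h3 := mul_left_cancel₀ hγ h1
      rw [← hsm, ← hsm] at h3
      have h4 := hinj _ _ h3
      have h5 : rep k (u : V2 k) = rep k (v : V2 k) := by
        rw [← rep_smul k (e u), h4, rep_smul]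
      apply Subtype.ext
      rw [((mem_Fo k _).1 u.2.2).2, ((mem_Fo k _).1 v.2.2).2, h5]
    · intro u'
      obtain ⟨u, hu, e', he'⟩ := hbw u' u'.2.1 u'.2.2
      refine ⟨⟨u, hu⟩, ?_⟩
      have h1 := hF ⟨u, hu⟩
      have h2 : zz h b' ((((e ⟨u, hu⟩) * e' : (𝓞 k)ˣ) : 𝓞 k) • (u' : V2 k)) =
          zz h b' (F ⟨u, hu⟩ : V2 k) := by
        rw [hsm', ← h1, ← he', Units.val_mul, map_mul]
        field_simp
      have h3 := hinj' _ _ h2
      apply Subtype.ext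
      rw [((mem_Fo k _).1 (F ⟨u, hu⟩).2.2).2, ((mem_Fo k _).1 u'.2.2).2, ← h3, rep_smul]
  have hval : ∀ u : S, w (ci c) A b (u : V2 k) = w (ci (σ c)) A' b' (F u : V2 k) := by
    intro u
    refine hw.inv (ci c) (ci (σ c)) A A' b b' (γ * algebraMap (𝓞 k) K (e u : 𝓞 k)) _ _ (hci _)
      (hci _) hA hA' ?_ ((mem_Fo k _).1 u.2.2).1 ?_ u.2.1 (F u).2.1 (hF u)
    · refine mul_ne_zero hγ ?_
      intro h0
      rw [IsScalarTower.algebraMap_apply (𝓞 k) k K, map_eq_zero] at h0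
      exact (e u).ne_zero (RingOfIntegers.ext h0)
    · rw [mul_comm, hom_mulL, map_unit, hγeq]
  have h1 : ∑' u : V2 k, (if u ∈ Lb (ci c) (A * f) ∧ u ∈ Fo k then w (ci c) A b u else 0) =
      ∑' u : S, w (ci c) A b u := by
    rw [tsum_subtype S (fun u => w (ci c) A b u)]
    refine tsum_congr fun u => ?_
    rw [Set.indicator_apply]
    rfl
  have h2 : ∑' u : V2 k, (if u ∈ Lb (ci (σ c)) (A' * f) ∧ u ∈ Fo k then
      w (ci (σ c)) A' b' u else 0) = ∑' u : S', w (ci (σ c)) A' b' u := by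
    rw [tsum_subtype S' (fun u => w (ci (σ c)) A' b' u)]
    refine tsum_congr fun u => ?_
    rw [Set.indicator_apply]
    rfl
  rw [h1, h2, ← (Equiv.ofBijective F hFb).tsum_eq (fun u : S' => w (ci (σ c)) A' b' u)]
  exact tsum_congr hval

end Pool.Agent.H7.NVK
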